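import Mathlib

set_option autoImplicit false

/-!
A small evaluator for products in a commutative ring of characteristic two in which all the
variables have square zero. There are 18 dense variables (bit sets of monomials, as natural
numbers) and 12 index variables (binary tries of depth 12).
-/

namespace Pool.Agent.Helper10.NC.Frob

inductive DE where
  | v (i : ℕ) : DE
  | add (a b : DE) : DE
  | mul (a b : DE) : DE

inductive TE where
  | d (a : DE) : TE
  | w (i : ℕ) : TE
  | add (a b : TE) : TE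
  | mul (a b : TE) : TE

inductive T where
  | e : T
  | l (n : ℕ) : T
  | n (a b : T) : T

def maskW (v : ℕ) : ℕ → ℕ
  | 0 => Nat.sub (Nat.pow 2 (Nat.pow 2 v)) 1
  | t+1 => Nat.lor (maskW v t) (Nat.shiftLeft (maskW v t) (Nat.pow 2 (v+1+t)))

def mulv (i N : ℕ) : ℕ :=
  Nat.shiftLeft (Nat.land N (maskW i (Nat.sub 17 i))) (Nat.pow 2 i)

def DE.app : DE → ℕ → ℕ
  | .v i, N => mulv i N
  | .add a b, N => Nat.xor (a.app N) (b.app N)
  | .mul a b, N => a.app (b.app N)

def mkL (N : ℕ) : T := cond (Nat.beq N 0) T.e (T.l N)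

def mkN (a b : T) : T :=
  match a with
  | .e => match b with
    | .e => .e
    | b => .n .e b
  | a => .n a b

def T.map (f : ℕ → ℕ) : T → T
  | .e => .e
  | .l N => mkL (f N)
  | .n a b => mkN (a.map f) (b.map f)

def T.add : T → T → T
  | .e, t => t
  | .l a, t => match t with
    | .l b => mkL (Nat.xor a b)
    | _ => .l a
  | .n a b, t => match t with
    | .n c d => mkN (a.add c) (b.add d)
    | _ => .n a b

def T.mulW : ℕ → T → T
  | _, .e => .e
  | _, .l _ => .e
  | 0, .n a _ => mkN .e a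
  | j+1, .n a b => mkN (a.mulW j) (b.mulW j)

def TE.app : TE → T → T
  | .d a, t => t.map a.app
  | .w i, t => t.mulW i
  | .add a b, t => (a.app t).add (b.app t)
  | .mul a b, t => a.app (b.app t)

def T.isZ : T → Bool
  | .e => true
  | _ => false

def one : ℕ → T
  | 0 => .l 1
  | k+1 => .n (one k) .e

def dx (i j : ℕ) : DE := .v (3*i+j)
def dy (i j : ℕ) : DE := .v (9+3*i+j)
def xi (k : ℕ) : TE := .w k
def xi' (k : ℕ) : TE := .w (3+k)
def et (k : ℕ) : TE := .w (6+k)
def et' (k : ℕ) : TE := .w (9+k)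

def uI3 (i : ℕ) : TE :=
  .add (.add (.mul (xi' 0) (.d (dx i 0))) (.mul (xi 0) (.d (dy i 0))))
    (.add (.add (.mul (xi' 1) (.d (dx i 1))) (.mul (xi 1) (.d (dy i 1))))
      (.add (.mul (xi' 2) (.d (dx i 2))) (.mul (xi 2) (.d (dy i 2)))))

def u3J (j : ℕ) : TE :=
  .add (.add (.mul (et 0) (.d (dy 0 j))) (.mul (et' 0) (.d (dx 0 j))))
    (.add (.add (.mul (et 1) (.d (dy 1 j))) (.mul (et' 1) (.d (dx 1 j))))
      (.add (.mul (et 2) (.d (dy 2 j))) (.mul (et' 2) (.d (dx 2 j)))))

def uIJ (i j k : ℕ) : TE :=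
  .add (.d (.add (.add (.mul (.add (dx i i) (dx j j)) (dy i j)) (.mul (.add (dy i i) (dy j j)) (dx i j)))
      (.add (.mul (dx i k) (dy k j)) (.mul (dy i k) (dx k j)))))
    (.add (.mul (xi i) (et' j)) (.mul (xi' i) (et j)))

def prd : T :=
  (uIJ 2 1 0).app ((uIJ 1 2 0).app ((uIJ 2 0 1).app ((uIJ 0 2 1).app ((uIJ 1 0 2).app ((uIJ 0 1 2).app
    ((u3J 2).app ((u3J 1).app ((u3J 0).app ((uI3 2).app ((uI3 1).app ((uI3 0).app (one 12))))))))))))

/-- the kernel computation -/
theorem prd_isZ : prd.isZ = true := by decide +kernel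

/-! ### soundness -/

open Finset

theorem tb_xor (x y i : ℕ) : (Nat.xor x y).testBit i = (x.testBit i ^^ y.testBit i) :=
  Nat.testBit_xor _ _ _

theorem tb_lor (x y i : ℕ) : (Nat.lor x y).testBit i = (x.testBit i || y.testBit i) :=
  Nat.testBit_or x y i

theorem tb_land (x y i : ℕ) : (Nat.land x y).testBit i = (x.testBit i && y.testBit i) :=
  Nat.testBit_and x y i

theorem tb_shl (n m i : ℕ) :
    (Nat.shiftLeft n m).testBit i = (decide (m ≤ i) && n.testBit (i - m)) :=
  Nat.testBit_shiftLeft n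

theorem maskW_spec (v t : ℕ) : ∀ m, (maskW v t).testBit m =
    (decide (m < 2 ^ (v + 1 + t)) && !m.testBit v) := by
  induction t with
  | zero =>
    intro m
    have h1 : maskW v 0 = 2 ^ (2 ^ v) - 1 := rfl
    rw [h1, Nat.testBit_two_pow_sub_one, Nat.add_zero]
    by_cases hm : m < 2 ^ v
    · have h2 : m < 2 ^ (v + 1) := hm.trans (Nat.pow_lt_pow_right (by norm_num) (by omega))
      rw [Nat.testBit_lt_two_pow hm]
      simp [hm, h2]
    · by_cases h2 : m < 2 ^ (v + 1)
      · have h3 : m = 2 ^ v + (m - 2 ^ v) := by omega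
        have h4 : m - 2 ^ v < 2 ^ v := by rw [pow_succ] at h2; omega
        have h5 : m.testBit v = true := by
          rw [h3, Nat.testBit_two_pow_add_eq, Nat.testBit_lt_two_pow h4]; rfl
        simp [hm, h5]
      · simp [hm, h2]
  | succ t ih =>
    intro m
    have h1 : maskW v (t + 1) = Nat.lor (maskW v t)
        (Nat.shiftLeft (maskW v t) (2 ^ (v + 1 + t))) := rfl
    rw [h1, tb_lor, tb_shl, ih, ih]
    have hp : 2 ^ (v + 1 + (t + 1)) = 2 ^ (v + 1 + t) + 2 ^ (v + 1 + t) := by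
      rw [← add_assoc, pow_succ]; ring
    by_cases hm : m < 2 ^ (v + 1 + t)
    · have h2 : ¬ 2 ^ (v + 1 + t) ≤ m := by omega
      have h3 : m < 2 ^ (v + 1 + (t + 1)) := by omega
      simp [hm, h2, h3]
    · have h2 : 2 ^ (v + 1 + t) ≤ m := by omega
      by_cases h3 : m < 2 ^ (v + 1 + (t + 1))
      · have h4 : m - 2 ^ (v + 1 + t) < 2 ^ (v + 1 + t) := by omega
        have h5 : m = 2 ^ (v + 1 + t) + (m - 2 ^ (v + 1 + t)) := by omega
        have h6 : m.testBit v = (m - 2 ^ (v + 1 + t)).testBit v := by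
          conv_lhs => rw [h5]
          rw [Nat.testBit_two_pow_add_gt (by omega)]
        simp [hm, h2, h3, h4, h6]
      · have h4 : ¬ (m - 2 ^ (v + 1 + t) < 2 ^ (v + 1 + t)) := by omega
        simp [hm, h2, h3, h4]

section ring

variable {R : Type*} [CommRing R]

/-- the squarefree monomial with exponent set `m` -/
def mon (v : ℕ → R) (K m : ℕ) : R := ∏ i ∈ range K, if m.testBit i then v i else 1

/-- the value of a bit set of monomials -/
def evN (v : ℕ → R) (K N : ℕ) : R := ∑ m ∈ range (2 ^ K), if N.testBit m then mon v K m else 0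

theorem evN_zero (v : ℕ → R) (K : ℕ) : evN v K 0 = 0 := by
  unfold evN
  refine sum_eq_zero fun m _ => ?_
  simp

theorem evN_one (v : ℕ → R) (K : ℕ) : evN v K 1 = 1 := by
  unfold evN
  rw [sum_eq_single 0]
  · have h1 : (1 : ℕ).testBit 0 = true := rfl
    rw [if_pos h1]
    unfold mon
    refine prod_eq_one fun i _ => ?_
    simp
  · intro m _ hm
    have : (1 : ℕ).testBit m = false := by
      rw [Nat.testBit_one_eq_true_iff_self_eq_zero.not.mpr hm |> Bool.eq_false_iff.mpr]
    rw [this]; simp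
  · intro h
    exact absurd (mem_range.mpr (by positivity)) h

theorem evN_xor (h2 : (2 : R) = 0) (v : ℕ → R) (K a b : ℕ) :
    evN v K (Nat.xor a b) = evN v K a + evN v K b := by
  unfold evN
  rw [← sum_add_distrib]
  refine sum_congr rfl fun m _ => ?_
  rw [tb_xor]
  cases a.testBit m <;> cases b.testBit m
  · simp
  · simp
  · simp
  · simp only [Bool.xor_self, Bool.false_eq_true, if_false, if_true]
    rw [← two_mul, h2, zero_mul]

theorem tb_add_pow {m j : ℕ} (h : m.testBit j = false) (i : ℕ) :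
    (m + 2 ^ j).testBit i = if i = j then true else m.testBit i := by
  rcases lt_trichotomy i j with hij | hij | hij
  · rw [if_neg hij.ne, add_comm, Nat.testBit_two_pow_add_gt hij]
  · subst hij
    rw [if_pos rfl, add_comm, Nat.testBit_two_pow_add_eq, h]; rfl
  · rw [if_neg hij.ne']
    have h1 : m % 2 ^ (j + 1) < 2 ^ j := by
      have h0 : m / 2 ^ j % 2 = 0 := by
        have := Nat.toNat_testBit m j
        rw [h] at this
        simpa using this.symm
      rw [Nat.mod_pow_succ, h0, mul_zero, add_zero]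
      exact Nat.mod_lt _ (by positivity)
    have h2 : (m + 2 ^ j) / 2 ^ (j + 1) = m / 2 ^ (j + 1) := by
      have h3 := Nat.div_add_mod m (2 ^ (j + 1))
      have h4 : 2 ^ (j + 1) = 2 ^ j + 2 ^ j := by rw [pow_succ]; ring
      apply Nat.div_eq_of_lt_le
      · rw [mul_comm]; omega
      · rw [add_mul, one_mul, mul_comm]; omega
    have h5 : i - (j + 1) + (j + 1) = i := by omega
    have h6 := Nat.testBit_div_two_pow (n := j + 1) (m + 2 ^ j) (i - (j + 1))
    have h7 := Nat.testBit_div_two_pow (n := j + 1) m (i - (j + 1))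
    rw [h5] at h6 h7
    rw [← h6, ← h7, h2]

/-- multiplication of a monomial by a variable -/
theorem mul_mon {v : ℕ → R} (hv : ∀ i, v i ^ 2 = 0) {K j : ℕ} (hj : j < K) (m : ℕ) :
    v j * mon v K m = if m.testBit j then 0 else mon v K (m + 2 ^ j) := by
  unfold mon
  have hmem : j ∈ range K := mem_range.mpr hj
  split_ifs with h
  · rw [← mul_prod_erase _ _ hmem, if_pos h, ← mul_assoc, ← sq, hv, zero_mul]
  · have h' : m.testBit j = false := by simpa using h
    rw [← mul_prod_erase _ _ hmem, ← mul_prod_erase (range K) _ hmem, if_neg (by rw [h']; simp),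
      one_mul, tb_add_pow h', if_pos rfl]
    simp only [if_true]
    congr 1
    refine prod_congr rfl fun i hi => ?_
    rw [tb_add_pow h', if_neg (ne_of_mem_erase hi)]

theorem mulv_eq (j N : ℕ) : mulv j N =
    Nat.shiftLeft (Nat.land N (maskW j (17 - j))) (2 ^ j) := rfl

theorem evN_mulv {v : ℕ → R} (hv : ∀ i, v i ^ 2 = 0) {j : ℕ} (hj : j < 18) (N : ℕ) :
    evN v 18 (mulv j N) = v j * evN v 18 N := by
  unfold evN
  rw [mul_sum]
  have hL : ∀ m ∈ range (2 ^ 18), v j * (if N.testBit m then mon v 18 m else 0) =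
      if (N.testBit m && !m.testBit j) then mon v 18 (m + 2 ^ j) else 0 := by
    intro m _
    cases hN : N.testBit m
    · simp
    · rw [if_pos rfl, mul_mon hv hj]
      cases hm : m.testBit j <;> simp
  rw [sum_congr rfl hL, ← sum_filter, ← sum_filter]
  symm
  refine sum_bij (fun m _ => m + 2 ^ j) ?_ ?_ ?_ ?_
  · intro m hm
    rw [mem_filter, mem_range, Bool.and_eq_true] at hm
    obtain ⟨h1, h2, h3⟩ := hm
    have h3' : m.testBit j = false := by simpa using h3
    rw [mem_filter, mem_range, mulv_eq, tb_shl, tb_land, maskW_spec]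
    have h4 : m + 2 ^ j < 2 ^ 18 := by
      refine Nat.lt_pow_two_of_testBit _ fun i hi => ?_
      rw [tb_add_pow h3', if_neg (by omega)]
      exact Nat.testBit_lt_two_pow (lt_of_lt_of_le h1 (Nat.pow_le_pow_right (by norm_num) hi))
    have h5 : j + 1 + (17 - j) = 18 := by omega
    refine ⟨h4, ?_⟩
    rw [Nat.add_sub_cancel, h2, h5, h3']
    have h6 : 2 ^ j ≤ m + 2 ^ j := Nat.le_add_left _ _
    simp only [decide_eq_true h1, decide_eq_true h6, Bool.not_false, Bool.and_self]
  · intro a _ b _ h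
    exact Nat.add_right_cancel h
  · intro m hm
    rw [mem_filter, mem_range, mulv_eq, tb_shl, tb_land, maskW_spec] at hm
    obtain ⟨h1, h2⟩ := hm
    simp only [Bool.and_eq_true, decide_eq_true_eq] at h2
    obtain ⟨h2, h3, h4, h5⟩ := h2
    refine ⟨m - 2 ^ j, ?_, Nat.sub_add_cancel h2⟩
    rw [mem_filter, mem_range, Bool.and_eq_true]
    exact ⟨lt_of_le_of_lt (Nat.sub_le _ _) h1, h3, h5⟩
  · intro m _; rfl

theorem evN_mulv_big {v : ℕ → R} {j : ℕ} (hj : 18 ≤ j) (N : ℕ) :
    evN v 18 (mulv j N) = 0 := by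
  unfold evN
  refine sum_eq_zero fun m hm => ?_
  rw [mem_range] at hm
  rw [mulv_eq, tb_shl]
  have h1 : ¬ 2 ^ j ≤ m := by
    have : 2 ^ 18 ≤ 2 ^ j := Nat.pow_le_pow_right (by norm_num) hj
    omega
  simp [h1]

def DE.val (v : ℕ → R) : DE → R
  | .v i => v i
  | .add a b => a.val v + b.val v
  | .mul a b => a.val v * b.val v

theorem DE.app_spec (h2 : (2 : R) = 0) {v : ℕ → R} (hv : ∀ i, v i ^ 2 = 0)
    (hv0 : ∀ i, 18 ≤ i → v i = 0) (a : DE) : ∀ N, evN v 18 (a.app N) = a.val v * evN v 18 N := by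
  induction a with
  | v i =>
    intro N
    show evN v 18 (mulv i N) = v i * _
    by_cases hi : i < 18
    · exact evN_mulv hv hi N
    · rw [evN_mulv_big (by omega), hv0 i (by omega), zero_mul]
  | add a b iha ihb =>
    intro N
    show evN v 18 (Nat.xor (a.app N) (b.app N)) = (a.val v + b.val v) * _
    rw [evN_xor h2, iha, ihb]; ring
  | mul a b iha ihb =>
    intro N
    show evN v 18 (a.app (b.app N)) = (a.val v * b.val v) * _
    rw [iha, ihb]; ring

/-- the value of a trie -/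
def T.ev (v w : ℕ → R) : ℕ → T → R
  | _, .e => 0
  | _, .l N => evN v 18 N
  | d, .n a b => T.ev v w (d + 1) a + w d * T.ev v w (d + 1) b

/-- well formed tries with remaining depth `k` -/
inductive WF : ℕ → T → Prop where
  | e (k : ℕ) : WF k T.e
  | l (N : ℕ) : WF 0 (T.l N)
  | n (k : ℕ) (a b : T) (ha : WF k a) (hb : WF k b) : WF (k + 1) (T.n a b)

theorem wf_mkL (N : ℕ) : WF 0 (mkL N) := by
  unfold mkL
  cases Nat.beq N 0
  · exact WF.l N
  · exact WF.e 0

theorem ev_mkL (v w : ℕ → R) (d N : ℕ) : (mkL N).ev v w d = evN v 18 N := by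
  unfold mkL
  cases h : Nat.beq N 0
  · rfl
  · have : N = 0 := Nat.eq_of_beq_eq_true h
    rw [this, evN_zero]; rfl

theorem wf_mkN {k : ℕ} {a b : T} (ha : WF k a) (hb : WF k b) : WF (k + 1) (mkN a b) := by
  cases a with
  | e =>
    cases b with
    | e => exact WF.e _
    | l N => exact WF.n _ _ _ ha hb
    | n c d => exact WF.n _ _ _ ha hb
  | l N => exact WF.n _ _ _ ha hb
  | n c d => exact WF.n _ _ _ ha hb

theorem ev_mkN (v w : ℕ → R) (d : ℕ) (a b : T) :
    (mkN a b).ev v w d = a.ev v w (d + 1) + w d * b.ev v w (d + 1) := by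
  cases a with
  | e =>
    cases b with
    | e => simp [mkN, T.ev]
    | l N => rfl
    | n c d => rfl
  | l N => rfl
  | n c d => rfl

theorem wf_map {f : ℕ → ℕ} {k : ℕ} {t : T} (h : WF k t) : WF k (t.map f) := by
  induction h with
  | e k => exact WF.e k
  | l N => exact wf_mkL _
  | n k a b _ _ iha ihb => exact wf_mkN iha ihb

theorem ev_map {v w : ℕ → R} {f : ℕ → ℕ} {c : R} (hf : ∀ N, evN v 18 (f N) = c * evN v 18 N)
    (t : T) : ∀ d, (t.map f).ev v w d = c * t.ev v w d := by
  induction t with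
  | e => intro d; simp [T.map, T.ev]
  | l N =>
    intro d
    show (mkL (f N)).ev v w d = _
    rw [ev_mkL, hf]; rfl
  | n a b iha ihb =>
    intro d
    show (mkN (a.map f) (b.map f)).ev v w d = _
    rw [ev_mkN, iha, ihb]
    simp only [T.ev]; ring

theorem wf_add {k : ℕ} {s : T} (hs : WF k s) : ∀ {t : T}, WF k t → WF k (s.add t) := by
  induction hs with
  | e k => intro t ht; exact ht
  | l N =>
    intro t ht
    cases ht with
    | e => exact WF.l N
    | l M => exact wf_mkL _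
  | n k a b ha hb iha ihb =>
    intro t ht
    cases ht with
    | e => exact WF.n _ _ _ ha hb
    | n _ c d hc hd => exact wf_mkN (iha hc) (ihb hd)

theorem ev_add (h2 : (2 : R) = 0) {v w : ℕ → R} {k : ℕ} {s : T} (hs : WF k s) :
    ∀ {t : T} (_ : WF k t) (d : ℕ), (s.add t).ev v w d = s.ev v w d + t.ev v w d := by
  induction hs with
  | e k =>
    intro t ht d
    show t.ev v w d = 0 + _
    rw [zero_add]
  | l N =>
    intro t ht d
    cases ht with
    | e => simp [T.add, T.ev]
    | l M =>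
      show (mkL (Nat.xor N M)).ev v w d = _
      rw [ev_mkL, evN_xor h2]; rfl
  | n k a b ha hb iha ihb =>
    intro t ht d
    cases ht with
    | e => simp [T.add, T.ev]
    | n _ c f hc he =>
      show (mkN (a.add c) (b.add f)).ev v w d = _
      rw [ev_mkN, iha hc, ihb he]
      simp only [T.ev]; ring

theorem wf_mulW {k : ℕ} {t : T} (ht : WF k t) : ∀ j, WF k (t.mulW j) := by
  induction ht with
  | e k => intro j; cases j <;> exact WF.e k
  | l N => intro j; cases j <;> exact WF.e 0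
  | n k a b ha hb iha ihb =>
    intro j
    cases j with
    | zero => exact wf_mkN (WF.e _) ha
    | succ j => exact wf_mkN (iha j) (ihb j)

theorem ev_mulW {v w : ℕ → R} (hw : ∀ i, w i ^ 2 = 0) (hw0 : ∀ i, 12 ≤ i → w i = 0)
    {k : ℕ} {t : T} (ht : WF k t) : ∀ (j d : ℕ), d + k = 12 →
    (t.mulW j).ev v w d = w (d + j) * t.ev v w d := by
  induction ht with
  | e k => intro j d _; cases j <;> simp [T.mulW, T.ev]
  | l N =>
    intro j d hd
    rw [hw0 (d + j) (by omega), zero_mul]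
    cases j <;> rfl
  | n k a b ha hb iha ihb =>
    intro j d hd
    cases j with
    | zero =>
      show (mkN T.e a).ev v w d = _
      rw [ev_mkN, add_zero]
      simp only [T.ev]
      have := hw d
      linear_combination -(b.ev v w (d + 1)) * this
    | succ j =>
      show (mkN (a.mulW j) (b.mulW j)).ev v w d = _
      rw [ev_mkN, iha j (d + 1) (by omega), ihb j (d + 1) (by omega)]
      simp only [T.ev]
      have e : d + 1 + j = d + (j + 1) := by ring
      rw [e]; ring

def TE.val (v w : ℕ → R) : TE → R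
  | .d a => a.val v
  | .w i => w i
  | .add a b => a.val v w + b.val v w
  | .mul a b => a.val v w * b.val v w

theorem TE.app_spec (h2 : (2 : R) = 0) {v w : ℕ → R} (hv : ∀ i, v i ^ 2 = 0)
    (hv0 : ∀ i, 18 ≤ i → v i = 0) (hw : ∀ i, w i ^ 2 = 0) (hw0 : ∀ i, 12 ≤ i → w i = 0)
    (a : TE) : ∀ t, WF 12 t → WF 12 (a.app t) ∧ (a.app t).ev v w 0 = a.val v w * t.ev v w 0 := by
  induction a with
  | d a =>
    intro t ht
    exact ⟨wf_map ht, ev_map (DE.app_spec h2 hv hv0 a) t 0⟩
  | w i =>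
    intro t ht
    refine ⟨wf_mulW ht i, ?_⟩
    have := ev_mulW hw hw0 ht i 0 (by norm_num) (v := v)
    rwa [zero_add] at this
  | add a b iha ihb =>
    intro t ht
    obtain ⟨a1, a2⟩ := iha t ht
    obtain ⟨b1, b2⟩ := ihb t ht
    refine ⟨wf_add a1 b1, ?_⟩
    show ((a.app t).add (b.app t)).ev v w 0 = (a.val v w + b.val v w) * _
    rw [ev_add h2 a1 b1, a2, b2]; ring
  | mul a b iha ihb =>
    intro t ht
    obtain ⟨b1, b2⟩ := ihb t ht
    obtain ⟨a1, a2⟩ := iha _ b1
    refine ⟨a1, ?_⟩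
    show (a.app (b.app t)).ev v w 0 = (a.val v w * b.val v w) * _
    rw [a2, b2]; ring

theorem wf_one (k : ℕ) : WF k (one k) := by
  induction k with
  | zero => exact WF.l 1
  | succ k ih => exact WF.n _ _ _ ih (WF.e _)

theorem ev_one (v w : ℕ → R) (k : ℕ) : ∀ d, (one k).ev v w d = 1 := by
  induction k with
  | zero => intro d; exact evN_one v 18
  | succ k ih =>
    intro d
    show (one k).ev v w (d + 1) + w d * 0 = 1
    rw [ih, mul_zero, add_zero]

theorem ev_isZ {v w : ℕ → R} {t : T} (h : t.isZ = true) (d : ℕ) : t.ev v w d = 0 := by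
  cases t with
  | e => rfl
  | l N => exact absurd h (by simp [T.isZ])
  | n a b => exact absurd h (by simp [T.isZ])

/-- the product of the twelve forms vanishes -/
theorem prd_zero (h2 : (2 : R) = 0) {v w : ℕ → R} (hv : ∀ i, v i ^ 2 = 0)
    (hv0 : ∀ i, 18 ≤ i → v i = 0) (hw : ∀ i, w i ^ 2 = 0) (hw0 : ∀ i, 12 ≤ i → w i = 0) :
    (uIJ 2 1 0).val v w * ((uIJ 1 2 0).val v w * ((uIJ 2 0 1).val v w * ((uIJ 0 2 1).val v w *
      ((uIJ 1 0 2).val v w * ((uIJ 0 1 2).val v w * ((u3J 2).val v w * ((u3J 1).val v w *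
      ((u3J 0).val v w * ((uI3 2).val v w * ((uI3 1).val v w * (uI3 0).val v w)))))))))) = 0 := by
  have key := fun a t ht => TE.app_spec h2 hv hv0 hw hw0 a t ht
  obtain ⟨w1, e1⟩ := key (uI3 0) _ (wf_one 12)
  obtain ⟨w2, e2⟩ := key (uI3 1) _ w1
  obtain ⟨w3, e3⟩ := key (uI3 2) _ w2
  obtain ⟨w4, e4⟩ := key (u3J 0) _ w3
  obtain ⟨w5, e5⟩ := key (u3J 1) _ w4
  obtain ⟨w6, e6⟩ := key (u3J 2) _ w5
  obtain ⟨w7, e7⟩ := key (uIJ 0 1 2) _ w6
  obtain ⟨w8, e8⟩ := key (uIJ 1 0 2) _ w7
  obtain ⟨w9, e9⟩ := key (uIJ 0 2 1) _ w8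
  obtain ⟨w10, e10⟩ := key (uIJ 2 0 1) _ w9
  obtain ⟨w11, e11⟩ := key (uIJ 1 2 0) _ w10
  obtain ⟨w12, e12⟩ := key (uIJ 2 1 0) _ w11
  have h0 := ev_isZ (v := v) (w := w) prd_isZ 0
  have h1 : prd.ev v w 0 = _ := e12
  rw [h0, e11, e10, e9, e8, e7, e6, e5, e4, e3, e2, e1, ev_one, mul_one] at h1
  exact h1.symm

end ring

end Pool.Agent.Helper10.NC.Frob
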