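import Mathlib
import Pool.Agent.Helper93.NC.FrobEval

set_option autoImplicit false

/-!
The product of the twelve off-diagonal entries of `X Y + Y X` for two `4 × 4` matrices whose
entries have square zero, in characteristic two.
-/

namespace Pool.Agent.Helper10.NC

open Finset Frob

theorem frob_prod_eq {R : Type*} [CommRing R] (U : Fin 4 → Fin 4 → R) :
    ∏ p ∈ (Finset.univ : Finset (Fin 4 × Fin 4)).filter (fun p => p.1 ≠ p.2), U p.1 p.2 =
    U 2 1 * (U 1 2 * (U 2 0 * (U 0 2 * (U 1 0 * (U 0 1 * (U 3 2 * (U 3 1 * (U 3 0 *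
      (U 2 3 * (U 1 3 * U 0 3)))))))))) := by
  rw [Finset.prod_filter, Fintype.prod_prod_type]
  simp only [Fin.prod_univ_four]
  simp
  ring

/-- the dense variables -/
def frobV {R : Type*} [CommRing R] (x y : Fin 4 → Fin 4 → R) : ℕ → R
  | 0 => x 0 0 | 1 => x 0 1 | 2 => x 0 2
  | 3 => x 1 0 | 4 => x 1 1 | 5 => x 1 2
  | 6 => x 2 0 | 7 => x 2 1 | 8 => x 2 2
  | 9 => y 0 0 | 10 => y 0 1 | 11 => y 0 2
  | 12 => y 1 0 | 13 => y 1 1 | 14 => y 1 2
  | 15 => y 2 0 | 16 => y 2 1 | 17 => y 2 2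
  | _ => 0

/-- the index variables -/
def frobW {R : Type*} [CommRing R] (x y : Fin 4 → Fin 4 → R) : ℕ → R
  | 0 => x 0 3 | 1 => x 1 3 | 2 => x 2 3
  | 3 => y 0 3 | 4 => y 1 3 | 5 => y 2 3
  | 6 => x 3 0 | 7 => x 3 1 | 8 => x 3 2
  | 9 => y 3 0 | 10 => y 3 1 | 11 => y 3 2
  | _ => 0

theorem frobV_sq {R : Type*} [CommRing R] {x y : Fin 4 → Fin 4 → R}
    (hx : ∀ i j, x i j ^ 2 = 0) (hy : ∀ i j, y i j ^ 2 = 0) (n : ℕ) : frobV x y n ^ 2 = 0 := by
  unfold frobV
  split <;> first | exact hx _ _ | exact hy _ _ | simp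

theorem frobW_sq {R : Type*} [CommRing R] {x y : Fin 4 → Fin 4 → R}
    (hx : ∀ i j, x i j ^ 2 = 0) (hy : ∀ i j, y i j ^ 2 = 0) (n : ℕ) : frobW x y n ^ 2 = 0 := by
  unfold frobW
  split <;> first | exact hx _ _ | exact hy _ _ | simp

theorem frobV_big {R : Type*} [CommRing R] (x y : Fin 4 → Fin 4 → R) (n : ℕ) (hn : 18 ≤ n) :
    frobV x y n = 0 := by
  unfold frobV
  split <;> first | omega | rfl

theorem frobW_big {R : Type*} [CommRing R] (x y : Fin 4 → Fin 4 → R) (n : ℕ) (hn : 12 ≤ n) :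
    frobW x y n = 0 := by
  unfold frobW
  split <;> first | omega | rfl

/-- the entries of `X Y + Y X` -/
def frobU {R : Type*} [CommRing R] (x y : Fin 4 → Fin 4 → R) (i j : Fin 4) : R :=
  ∑ k, (x i k * y k j + y i k * x k j)

theorem frob_case {R : Type*} [CommRing R] (h2 : (2 : R) = 0) (x y : Fin 4 → Fin 4 → R)
    (hx : ∀ i j, x i j ^ 2 = 0) (hy : ∀ i j, y i j ^ 2 = 0) (hx3 : x 3 3 = 0) (hy3 : y 3 3 = 0) :
    frobU x y 2 1 * (frobU x y 1 2 * (frobU x y 2 0 * (frobU x y 0 2 * (frobU x y 1 0 *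
      (frobU x y 0 1 * (frobU x y 3 2 * (frobU x y 3 1 * (frobU x y 3 0 *
      (frobU x y 2 3 * (frobU x y 1 3 * frobU x y 0 3)))))))))) = 0 := by
  have e1 : frobU x y 2 1 = (uIJ 2 1 0).val (frobV x y) (frobW x y) := by
    simp only [frobU, Fin.sum_univ_four, uIJ, dx, dy, xi, xi', et, et', TE.val, DE.val, frobV,
      frobW]
    ring
  have e2 : frobU x y 1 2 = (uIJ 1 2 0).val (frobV x y) (frobW x y) := by
    simp only [frobU, Fin.sum_univ_four, uIJ, dx, dy, xi, xi', et, et', TE.val, DE.val, frobV,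
      frobW]
    ring
  have e3 : frobU x y 2 0 = (uIJ 2 0 1).val (frobV x y) (frobW x y) := by
    simp only [frobU, Fin.sum_univ_four, uIJ, dx, dy, xi, xi', et, et', TE.val, DE.val, frobV,
      frobW]
    ring
  have e4 : frobU x y 0 2 = (uIJ 0 2 1).val (frobV x y) (frobW x y) := by
    simp only [frobU, Fin.sum_univ_four, uIJ, dx, dy, xi, xi', et, et', TE.val, DE.val, frobV,
      frobW]
    ring
  have e5 : frobU x y 1 0 = (uIJ 1 0 2).val (frobV x y) (frobW x y) := by
    simp only [frobU, Fin.sum_univ_four, uIJ, dx, dy, xi, xi', et, et', TE.val, DE.val, frobV,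
      frobW]
    ring
  have e6 : frobU x y 0 1 = (uIJ 0 1 2).val (frobV x y) (frobW x y) := by
    simp only [frobU, Fin.sum_univ_four, uIJ, dx, dy, xi, xi', et, et', TE.val, DE.val, frobV,
      frobW]
    ring
  have e7 : frobU x y 3 2 = (u3J 2).val (frobV x y) (frobW x y) := by
    simp only [frobU, Fin.sum_univ_four, u3J, dx, dy, et, et', TE.val, DE.val, frobV,
      frobW, hx3, hy3]
    ring
  have e8 : frobU x y 3 1 = (u3J 1).val (frobV x y) (frobW x y) := by
    simp only [frobU, Fin.sum_univ_four, u3J, dx, dy, et, et', TE.val, DE.val, frobV,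
      frobW, hx3, hy3]
    ring
  have e9 : frobU x y 3 0 = (u3J 0).val (frobV x y) (frobW x y) := by
    simp only [frobU, Fin.sum_univ_four, u3J, dx, dy, et, et', TE.val, DE.val, frobV,
      frobW, hx3, hy3]
    ring
  have e10 : frobU x y 2 3 = (uI3 2).val (frobV x y) (frobW x y) := by
    simp only [frobU, Fin.sum_univ_four, uI3, dx, dy, xi, xi', TE.val, DE.val, frobV,
      frobW, hx3, hy3]
    ring
  have e11 : frobU x y 1 3 = (uI3 1).val (frobV x y) (frobW x y) := by
    simp only [frobU, Fin.sum_univ_four, uI3, dx, dy, xi, xi', TE.val, DE.val, frobV,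
      frobW, hx3, hy3]
    ring
  have e12 : frobU x y 0 3 = (uI3 0).val (frobV x y) (frobW x y) := by
    simp only [frobU, Fin.sum_univ_four, uI3, dx, dy, xi, xi', TE.val, DE.val, frobV,
      frobW, hx3, hy3]
    ring
  rw [e1, e2, e3, e4, e5, e6, e7, e8, e9, e10, e11, e12]
  exact prd_zero h2 (frobV_sq hx hy) (frobV_big x y) (frobW_sq hx hy) (frobW_big x y)

theorem frobU_shift {R : Type*} [CommRing R] (h2 : (2 : R) = 0) (x y : Fin 4 → Fin 4 → R)
    (a b : R) {i j : Fin 4} (hij : i ≠ j) :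
    frobU (fun i j => x i j + if i = j then a else 0) (fun i j => y i j + if i = j then b else 0)
      i j = frobU x y i j := by
  unfold frobU
  have h1 : ∀ k, ((x i k + if i = k then a else 0) * (y k j + if k = j then b else 0) +
      (y i k + if i = k then b else 0) * (x k j + if k = j then a else 0)) =
      (x i k * y k j + y i k * x k j) + ((if i = k then a * y k j + b * x k j else 0) +
        (if k = j then b * x i k + a * y i k else 0)) := by
    intro k
    by_cases h : i = k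
    · subst h
      rw [if_pos rfl, if_pos rfl, if_neg hij, if_neg hij, if_pos rfl, if_neg hij]
      ring
    · rw [if_neg h, if_neg h, if_neg h]
      by_cases h' : k = j
      · rw [if_pos h', if_pos h', if_pos h']
        ring
      · rw [if_neg h', if_neg h', if_neg h']
        ring
  have h3 : ∑ k, ((if i = k then a * y k j + b * x k j else 0) +
      (if k = j then b * x i k + a * y i k else 0)) = 0 := by
    rw [Finset.sum_add_distrib, Finset.sum_ite_eq, Finset.sum_ite_eq', if_pos (Finset.mem_univ _),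
      if_pos (Finset.mem_univ _)]
    linear_combination (a * y i j + b * x i j) * h2
  rw [Finset.sum_congr rfl fun k _ => h1 k, Finset.sum_add_distrib (f := fun k =>
    x i k * y k j + y i k * x k j), h3, add_zero]

/-- **Frobenius vanishing**: the product of the twelve off-diagonal entries of `X Y + Y X`. -/
theorem frob_vanish {Λ : Type*} [CommRing Λ] (h2 : (2 : Λ) = 0) (x y : Fin 4 → Fin 4 → Λ)
    (hx : ∀ i j, x i j ^ 2 = 0) (hy : ∀ i j, y i j ^ 2 = 0) :
    ∏ p ∈ (Finset.univ : Finset (Fin 4 × Fin 4)).filter (fun p => p.1 ≠ p.2),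
      ∑ k, (x p.1 k * y k p.2 + y p.1 k * x k p.2) = 0 := by
  have h0 : ∏ p ∈ (Finset.univ : Finset (Fin 4 × Fin 4)).filter (fun p => p.1 ≠ p.2),
      ∑ k, (x p.1 k * y k p.2 + y p.1 k * x k p.2) =
      ∏ p ∈ (Finset.univ : Finset (Fin 4 × Fin 4)).filter (fun p => p.1 ≠ p.2),
      frobU x y p.1 p.2 := rfl
  rw [h0]
  have h1 : ∀ p ∈ (Finset.univ : Finset (Fin 4 × Fin 4)).filter (fun p => p.1 ≠ p.2),
      frobU x y p.1 p.2 = frobU (fun i j => x i j + if i = j then x 3 3 else 0)
        (fun i j => y i j + if i = j then y 3 3 else 0) p.1 p.2 := by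
    intro p hp
    rw [Finset.mem_filter] at hp
    exact (frobU_shift h2 x y (x 3 3) (y 3 3) hp.2).symm
  rw [Finset.prod_congr rfl h1, frob_prod_eq]
  have sq0 : ∀ (z : Fin 4 → Fin 4 → Λ), (∀ i j, z i j ^ 2 = 0) → ∀ i j : Fin 4,
      (z i j + if i = j then z 3 3 else 0) ^ 2 = 0 := by
    intro z hz i j
    split_ifs
    · linear_combination hz i j + hz 3 3 + z i j * z 3 3 * h2
    · rw [add_zero]; exact hz i j
  refine frob_case h2 _ _ (sq0 x hx) (sq0 y hy) ?_ ?_
  · show x 3 3 + (if (3 : Fin 4) = 3 then x 3 3 else 0) = 0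
    rw [if_pos rfl]
    linear_combination x 3 3 * h2
  · show y 3 3 + (if (3 : Fin 4) = 3 then y 3 3 else 0) = 0
    rw [if_pos rfl]
    linear_combination y 3 3 * h2

end Pool.Agent.Helper10.NC
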